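import Pool.Agent.Q135.GP.Lev
import Pool.Agent.Y163.TateB

/-!
# The generalized Tate conjecture descends to factors
-/

set_option linter.unusedVariables false
set_option linter.unusedSectionVars false

open CategoryTheory AlgebraicGeometry

universe u v

namespace Pool.Agent.Q135.GP

open Polynomial Pool.Agent.H914 Pool.Agent.W534 VarClass Obj WeilCohomology Pool.Agent.Y163 Module
open Pool.Agent.Q68.FD Pool.Agent.Q68.GT

variable {k : Type u} [Field k] {𝒱 : VarClass k} {ops : CycleOps 𝒱}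
  {W : WeilCohomology.{u, v} ops} {X Y Z : 𝒱.Obj} {p : ℕ} {Φ : FrobSystem W p}

lemma geoConiv.kop {i ν : ℕ} {ψ : W.H Z →ₗ[W.K] W.H X} (hψ : ψ ∈ KOp W Z X 0) {x : W.H Z}
    (hx : x ∈ geoConiv W Z i ν) : ψ x ∈ geoConiv W X i ν := by
  refine geoConiv.ind (P := fun x => ψ x ∈ geoConiv W X i ν) ?_ ?_ ?_ ?_ hx
  · rw [map_zero]; exact Submodule.zero_mem _
  · intro a b ha hb; rw [map_add]; exact Submodule.add_mem _ ha hb
  · intro t a ha; rw [map_smul]; exact Submodule.smul_mem _ _ ha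
  · intro Y φ j y hφ hy hj
    exact geoConiv.of_kop (φ := ψ ∘ₗ φ) (KOp.cast (KOp.comp hψ hφ) (by ring)) hy hj

lemma kop_L_pow {D : Z.Cycles} (hD : Z.IsCyc 1 D) : ∀ n : ℕ,
    LinearMap.mulLeft W.K (W.cl Z D) ^ n ∈ KOp W Z Z n
  | 0 => by
    rw [pow_zero]
    exact KOp.id (W := W) Z
  | n + 1 => by
    rw [pow_succ']
    exact KOp.cast (KOp.comp (kop_L hD) (kop_L_pow hD n)) (by push_cast; ring)

lemma mulLeft_pow_apply (a x : W.H Z) (n : ℕ) :
    (LinearMap.mulLeft W.K a ^ n) x = a ^ n * x := by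
  induction n with
  | zero => simp
  | succ n ih => rw [pow_succ', Module.End.mul_apply, ih, LinearMap.mulLeft_apply, pow_succ',
      mul_assoc]

/-- An algebraic left inverse of the pull-back to a product. -/
lemma exists_retraction {D : Y.Cycles} (hD : Y.IsCyc 1 D)
    (h : W.tr Y (W.cl Y D ^ Y.dim) ≠ 0) :
    ∃ ψ ∈ KOp W (X.prod Y) X 0, ∀ x, ψ (W.map (fst X Y) x) = W.tr Y (W.cl Y D ^ Y.dim) • x := by
  have hD' : (X.prod Y).IsCyc 1 (ops.pull (snd X Y) D) := ops.pull_mem _ hD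
  have h1 := KOp.comp (kop_L_pow (W := W) hD' Y.dim) (map_mem_KOp (W := W) (fst X Y))
  obtain ⟨ψ, hψ, h2⟩ := KOp.exists_adjoint h1
  refine ⟨ψ, KOp.cast hψ (by rw [dim_prod]; push_cast; ring), fun x => ?_⟩
  rw [← sub_eq_zero]
  apply nondeg_right
  intro b
  rw [mul_sub, map_sub, ← h2, LinearMap.comp_apply, mulLeft_pow_apply, W.cl_pull, ← map_pow]
  have h3 : W.map (snd X Y) (W.cl Y D ^ Y.dim) ∈ W.gr (X.prod Y) (2 * Y.dim) :=
    W.map_mem _ (pow_mem_gr hD _)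
  have h4 : W.map (snd X Y) (W.cl Y D ^ Y.dim) * (W.map (fst X Y)).toLinearMap b *
      W.map (fst X Y) x = W.map (fst X Y) (b * x) * W.map (snd X Y) (W.cl Y D ^ Y.dim) := by
    rw [mul_assoc, W.even_comm h3, map_mul]
    rfl
  rw [h4, W.tr_prod, mul_smul_comm, map_smul, smul_eq_mul, mul_comm, sub_self]

variable [hp : Fact p.Prime]

/-- **Descent to the first factor.** -/
theorem gtc_left {D : Y.Cycles} (hD : Y.IsCyc 1 D) (hbig : W.tr Y (W.cl Y D ^ Y.dim) ≠ 0)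
    (h : ∀ i ν, GTCIn Φ (X.prod Y) i ν) (i ν : ℕ) : GTCIn Φ X i ν := by
  intro s hs α hα x hx
  obtain ⟨ψ, hψ, hret⟩ := exists_retraction (X := X) hD hbig
  obtain ⟨a, b, ha, hb, hab, hcomm⟩ := frob_comm (W := W) Φ (fst X Y)
  have h1 : x ∈ (frob Φ X (b * s)).maxGenEigenspace (α ^ b) := by
    have h2 := gen_mono (frob Φ X s) α b hx.1
    rwa [← frob_mul_eq, mul_comm s] at h2
  have h2 : W.map (fst X Y) x ∈ (frob Φ (X.prod Y) (a * s)).maxGenEigenspace (α ^ b) :=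
    gen_intertwine (θ := (W.map (fst X Y)).toLinearMap) (fun y => (hcomm s y).symm) h1
  have h3 : (card Φ (X.prod Y) (a * s) : W.K) = (card Φ X s : W.K) ^ b := by
    rw [card_cast, card_cast, ← pow_mul]
    congr 1
    calc Φ.e (X.prod Y) * (a * s) = (a * Φ.e (X.prod Y)) * s := by ring
      _ = _ := by rw [hab]; ring
  have h4 := h i ν (a * s) (Nat.mul_pos ha hs) (α ^ b) (by
    rw [h3, pow_right_comm, ← div_pow]
    exact hα.pow _) ⟨h2, W.map_mem _ hx.2⟩
  have h5 := geoConiv.kop hψ h4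
  rw [hret] at h5
  have h6 := Submodule.smul_mem _ (W.tr Y (W.cl Y D ^ Y.dim))⁻¹ h5
  rwa [smul_smul, inv_mul_cancel₀ hbig, one_smul] at h6

/-- **Descent to the second factor.** -/
theorem gtc_right {D : X.Cycles} (hD : X.IsCyc 1 D) (hbig : W.tr X (W.cl X D ^ X.dim) ≠ 0)
    (h : ∀ i ν, GTCIn Φ (X.prod Y) i ν) (i ν : ℕ) : GTCIn Φ Y i ν := by
  refine gtc_left (X := Y) (Y := X) hD hbig (fun i ν => ?_) i ν
  intro s hs α hα x hx
  obtain ⟨a, b, ha, hb, hab, hcomm⟩ := frob_comm (W := W) Φ (swap X Y)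
  have h1 : x ∈ (frob Φ (Y.prod X) (b * s)).maxGenEigenspace (α ^ b) := by
    have h2 := gen_mono (frob Φ (Y.prod X) s) α b hx.1
    rwa [← frob_mul_eq, mul_comm s] at h2
  have h2 : W.map (swap X Y) x ∈ (frob Φ (X.prod Y) (a * s)).maxGenEigenspace (α ^ b) :=
    gen_intertwine (θ := (W.map (swap X Y)).toLinearMap) (fun y => (hcomm s y).symm) h1
  have h3 : (card Φ (X.prod Y) (a * s) : W.K) = (card Φ (Y.prod X) s : W.K) ^ b := by
    rw [card_cast, card_cast, ← pow_mul]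
    congr 1
    calc Φ.e (X.prod Y) * (a * s) = (a * Φ.e (X.prod Y)) * s := by ring
      _ = _ := by rw [hab]; ring
  have h4 := h i ν (a * s) (Nat.mul_pos ha hs) (α ^ b) (by
    rw [h3, pow_right_comm, ← div_pow]
    exact hα.pow _) ⟨h2, W.map_mem _ hx.2⟩
  have h5 := geoConiv.map (swap Y X) h4
  have h6 : swap Y X ≫ swap X Y = 𝟙 (Y.prod X) := by
    apply prod_hom_ext
    · rw [Category.assoc, swap_fst, swap_snd, Category.id_comp]
    · rw [Category.assoc, swap_snd, swap_fst, Category.id_comp]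
  rwa [← W.map_comp, h6, W.map_id] at h5

end Pool.Agent.Q135.GP
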