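import Pool.Agent.Q68.GT.Slope

/-!
# Divisibility of products of numbers in linearly disjoint fields
-/

set_option autoImplicit false

open Polynomial Pool.Agent.H485R3 TensorProduct

namespace Pool.Agent.Q135.GP

/-- A number in a number field whose images in the algebraic closures of all `ℚ_l` have norm at
most one is integral. -/
lemma integral_of_norms {F : Type*} [Field F] [Algebra ℚ F] [Algebra.IsAlgebraic ℚ F] (x : F)
    (h : ∀ (l : ℕ) [Fact l.Prime] (e : F →ₐ[ℚ] PadicAlgCl l), ‖e x‖ ≤ 1) : IsIntegral ℤ x := by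
  have : Algebra.IsAlgebraic ℚ (AlgebraicClosure F) :=
    Algebra.IsAlgebraic.trans ℚ F (AlgebraicClosure F)
  have h2 : IsAlgClosure ℚ (AlgebraicClosure F) := ⟨inferInstance, this⟩
  have : Normal ℚ (AlgebraicClosure F) := IsAlgClosure.normal ℚ _
  have h3 : IsIntegral ℤ (algebraMap F (AlgebraicClosure F) x) := by
    apply isIntegral_of_norm_le
    intro l _ e
    exact h l (e.comp (IsScalarTower.toAlgHom ℚ F (AlgebraicClosure F)))
  exact (isIntegral_algebraMap_iff (algebraMap F (AlgebraicClosure F)).injective).1 h3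

/-- `α / q ^ ν₁` is an algebraic integer for some `ν₁`, and some conjugate of it in the algebraic
closure of `ℚ_p` has norm one: the smallest slope of `α` at the places above `p` is the integer
`ν₁`. -/
def IntLevel (p : ℕ) [Fact p.Prime] {K : Type*} [Field K] [CharZero K] (q : ℕ) (α : K) : Prop :=
  ∃ ν₁ : ℕ, IsIntegral ℤ (α / (q : K) ^ ν₁) ∧
    ∃ z : PadicAlgCl p, aeval z (minpoly ℚ α) = 0 ∧ ‖z / (q : PadicAlgCl p) ^ ν₁‖ = 1

/-- Divisibility by powers of `q` splits for products of numbers in linearly disjoint fields. -/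
theorem split {K : Type*} [Field K] [CharZero K] {p : ℕ} [hp : Fact p.Prime] {E : ℕ}
    {F₁ F₂ : IntermediateField ℚ K} [FiniteDimensional ℚ F₂]
    (hdis : F₁.LinearDisjoint F₂) {α β : K} (hα : α ∈ F₁) (hβ : β ∈ F₂)
    (hF₁ : FiniteDimensional ℚ F₁)
    (hlev : IntLevel p (p ^ E) α) (hint : IsIntegral ℤ β) {ν : ℕ}
    (h : IsIntegral ℤ (α * β / ((p : K) ^ E) ^ ν)) :
    ∃ ν₁ ν₂, ν₁ + ν₂ = ν ∧ IsIntegral ℤ (α / ((p : K) ^ E) ^ ν₁) ∧
      IsIntegral ℤ (β / ((p : K) ^ E) ^ ν₂) := by
  obtain ⟨ν₁, h1, z, hz, hzn⟩ := hlev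
  have hq : ((p ^ E : ℕ) : K) = (p : K) ^ E := by push_cast; rfl
  have hq' : ((p ^ E : ℕ) : PadicAlgCl p) = (p : PadicAlgCl p) ^ E := by push_cast; rfl
  rw [hq] at h1
  rw [hq'] at hzn
  have hqint : IsIntegral ℤ ((p : K) ^ E) := by
    have := (isIntegral_algebraMap (R := ℤ) (A := K) (x := ((p : ℤ) ^ E)))
    simpa using this
  have hp0 : (p : K) ^ E ≠ 0 := pow_ne_zero _ (by exact_mod_cast hp.1.ne_zero)
  rcases le_total ν ν₁ with hle | hle
  · refine ⟨ν, 0, rfl, ?_, by simpa using hint⟩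
    have h3 : α / ((p : K) ^ E) ^ ν = α / ((p : K) ^ E) ^ ν₁ * ((p : K) ^ E) ^ (ν₁ - ν) := by
      obtain ⟨d, rfl⟩ := Nat.exists_eq_add_of_le hle
      rw [Nat.add_sub_cancel_left, pow_add]
      field_simp
    rw [h3]
    exact h1.mul (hqint.pow _)
  · obtain ⟨d, rfl⟩ := Nat.exists_eq_add_of_le hle
    refine ⟨ν₁, d, rfl, h1, ?_⟩
    have hβ' : β / ((p : K) ^ E) ^ d ∈ F₂ :=
      F₂.div_mem hβ (pow_mem (pow_mem (natCast_mem F₂ p) E) d)
    have key : IsIntegral ℤ (⟨β / ((p : K) ^ E) ^ d, hβ'⟩ : F₂) := by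
      apply integral_of_norms
      intro l hl e₂
      have hval : (⟨β / ((p : K) ^ E) ^ d, hβ'⟩ : F₂) = ⟨β, hβ⟩ / ((p : F₂) ^ E) ^ d := by
        apply Subtype.ext
        push_cast
        rfl
      by_cases hlp : l = p
      · subst hlp
        -- the embedding of the first field
        have hαi : IsIntegral ℚ (⟨α, hα⟩ : F₁) := Algebra.IsIntegral.isIntegral _
        have hmin : minpoly ℚ (⟨α, hα⟩ : F₁) = minpoly ℚ α := by
          have := minpoly.algebraMap_eq (A := ℚ) (B := F₁) (B' := K)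
            (algebraMap F₁ K).injective (⟨α, hα⟩ : F₁)
          exact this.symm
        obtain ⟨e₁, he₁⟩ : ∃ e₁ : F₁ →ₐ[ℚ] PadicAlgCl l, e₁ ⟨α, hα⟩ = z := by
          have hz' : aeval z (minpoly ℚ (⟨α, hα⟩ : F₁)) = 0 := by rw [hmin]; exact hz
          have := (IntermediateField.exists_algHom_of_splits_of_aeval (F := ℚ) (E := F₁)
            (K := PadicAlgCl l) (fun s => ⟨Algebra.IsIntegral.isIntegral s,
              IsAlgClosed.splits _⟩) hz')
          exact this
        have hd := IntermediateField.linearDisjoint_iff'.1 hdis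
        let m := hd.mulMap
        let ψ : (F₁.toSubalgebra ⊔ F₂.toSubalgebra : Subalgebra ℚ K) →ₐ[ℚ] PadicAlgCl l :=
          (Algebra.TensorProduct.productMap e₁ e₂).comp m.symm.toAlgHom
        have hψ : ∀ (a : F₁) (b : F₂) (x : (F₁.toSubalgebra ⊔ F₂.toSubalgebra : Subalgebra ℚ K)),
            (x : K) = a * b → ψ x = e₁ a * e₂ b := by
          intro a b x hx
          have h4 : x = m (a ⊗ₜ[ℚ] b) := by
            apply Subtype.ext
            rw [hx]
            exact (Subalgebra.LinearDisjoint.val_mulMap_tmul hd a b).symm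
          rw [h4]
          change Algebra.TensorProduct.productMap e₁ e₂ (m.symm (m (a ⊗ₜ[ℚ] b))) = _
          rw [AlgEquiv.symm_apply_apply, Algebra.TensorProduct.productMap_apply_tmul]
        set a : F₁ := ⟨α, hα⟩ / ((l : F₁) ^ E) ^ ν₁ with ha
        set b : F₂ := ⟨β, hβ⟩ / ((l : F₂) ^ E) ^ d with hb
        have hab : α * β / ((l : K) ^ E) ^ (ν₁ + d) = (a : K) * (b : K) := by
          rw [ha, hb]
          push_cast
          rw [pow_add]
          field_simp
        let x : (F₁.toSubalgebra ⊔ F₂.toSubalgebra : Subalgebra ℚ K) := m (a ⊗ₜ[ℚ] b)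
        have hx : (x : K) = a * b := Subalgebra.LinearDisjoint.val_mulMap_tmul hd a b
        have hxint : IsIntegral ℤ x := by
          have h5 : IsIntegral ℤ ((F₁.toSubalgebra ⊔ F₂.toSubalgebra).val x) := by
            change IsIntegral ℤ (x : K)
            rw [hx, ← hab]
            exact h
          exact (isIntegral_algHom_iff
            ((F₁.toSubalgebra ⊔ F₂.toSubalgebra).val.restrictScalars ℤ)
            Subtype.val_injective).1 h5
        have h6 : ‖ψ x‖ ≤ 1 :=
          norm_le_one_of_isIntegral l _ (hxint.map (ψ.restrictScalars ℤ))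
        rw [hψ a b x hx, norm_mul] at h6
        have h7 : ‖e₁ a‖ = 1 := by
          rw [ha, map_div₀, map_pow, map_pow, map_natCast, he₁]
          exact hzn
        rw [h7, one_mul] at h6
        rw [hval]
        exact h6
      · rw [hval, map_div₀, map_pow, map_pow, map_natCast, norm_div, ← pow_mul,
          norm_prime_pow_ne l p hp.1 hlp, div_one]
        have h8 : IsIntegral ℤ (⟨β, hβ⟩ : F₂) :=
          (isIntegral_algHom_iff (F₂.val.restrictScalars ℤ) Subtype.val_injective).1 hint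
        exact norm_le_one_of_isIntegral l _ (h8.map (e₂.restrictScalars ℤ))
    exact (isIntegral_algHom_iff (F₂.val.restrictScalars ℤ) Subtype.val_injective).2 key

end Pool.Agent.Q135.GP
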