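import Pool.Agent.Q135.GP.Main

/-!
# The generalized Tate conjecture for products: final form
-/

set_option linter.unusedVariables false
set_option linter.unusedSectionVars false

open CategoryTheory AlgebraicGeometry

universe u v

namespace Pool.Agent.Q135.GP

open Polynomial Pool.Agent.H914 Pool.Agent.W534 VarClass Obj WeilCohomology Pool.Agent.Y163 Module
open Pool.Agent.Q68.FD Pool.Agent.Q68.GT Pool.Agent.H485R3

/-- Integrality of the smallest slope from the norms of the images. -/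
lemma intLevel_of {K : Type*} [Field K] [CharZero K] {p : ℕ} [hp : Fact p.Prime] {E : ℕ}
    (F : IntermediateField ℚ K) [FiniteDimensional ℚ F] {α : K} (hα : α ∈ F)
    (hint : IsIntegral ℤ α)
    (h : ∀ ψ : F →ₐ[ℚ] PadicAlgCl p, ∃ m : ℕ, ‖ψ ⟨α, hα⟩‖ * ((p : ℝ) ^ E) ^ m = 1) :
    IntLevel p (p ^ E) α := by
  classical
  let P : ℕ → Prop := fun m => ∃ ψ : F →ₐ[ℚ] PadicAlgCl p, ‖ψ ⟨α, hα⟩‖ * ((p : ℝ) ^ E) ^ m = 1
  have hex : ∃ m, P m := by
    obtain ⟨m, hm⟩ := h IsAlgClosed.lift
    exact ⟨m, _, hm⟩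
  obtain ⟨ψ₀, hψ₀⟩ := Nat.find_spec hex
  have hmin : ∀ m, P m → Nat.find hex ≤ m := fun m hm => Nat.find_min' hex hm
  set m₀ := Nat.find hex with hm₀
  have hq0 : (0 : ℝ) < (p : ℝ) ^ E := pow_pos (by exact_mod_cast hp.1.pos) _
  have hq1 : (1 : ℝ) ≤ (p : ℝ) ^ E := one_le_pow₀ (by exact_mod_cast hp.1.one_le)
  have hqK : ((p ^ E : ℕ) : K) = (p : K) ^ E := by push_cast; rfl
  have hqP : ((p ^ E : ℕ) : PadicAlgCl p) = (p : PadicAlgCl p) ^ E := by push_cast; rfl
  refine ⟨m₀, ?_, ψ₀ ⟨α, hα⟩, ?_, ?_⟩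
  · rw [hqK]
    have hβ' : α / ((p : K) ^ E) ^ m₀ ∈ F :=
      F.div_mem hα (pow_mem (pow_mem (natCast_mem F p) E) m₀)
    have key : IsIntegral ℤ (⟨α / ((p : K) ^ E) ^ m₀, hβ'⟩ : F) := by
      apply integral_of_norms
      intro l hl e
      have hval : (⟨α / ((p : K) ^ E) ^ m₀, hβ'⟩ : F) = ⟨α, hα⟩ / ((p : F) ^ E) ^ m₀ := by
        apply Subtype.ext
        push_cast
        rfl
      by_cases hlp : l = p
      · subst hlp
        obtain ⟨m, hm⟩ := h e
        have h1 := hmin m ⟨e, hm⟩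
        rw [hval, map_div₀, map_pow, map_pow, map_natCast, norm_div, ← pow_mul, norm_q, pow_mul,
          div_inv_eq_mul]
        calc ‖e ⟨α, hα⟩‖ * ((l : ℝ) ^ E) ^ m₀ ≤ ‖e ⟨α, hα⟩‖ * ((l : ℝ) ^ E) ^ m :=
              mul_le_mul_of_nonneg_left (pow_le_pow_right₀ hq1 h1) (norm_nonneg _)
          _ = 1 := hm
      · rw [hval, map_div₀, map_pow, map_pow, map_natCast, norm_div, ← pow_mul,
          norm_prime_pow_ne l p hp.1 hlp, div_one]
        have h8 : IsIntegral ℤ (⟨α, hα⟩ : F) :=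
          (isIntegral_algHom_iff (F.val.restrictScalars ℤ) Subtype.val_injective).1 hint
        exact norm_le_one_of_isIntegral l _ (h8.map (e.restrictScalars ℤ))
    exact (isIntegral_algHom_iff (F.val.restrictScalars ℤ) Subtype.val_injective).2 key
  · have hminp : minpoly ℚ (⟨α, hα⟩ : F) = minpoly ℚ α :=
      (minpoly.algebraMap_eq (A := ℚ) (B := F) (B' := K) (algebraMap F K).injective
        (⟨α, hα⟩ : F)).symm
    rw [← hminp, aeval_algHom_apply, minpoly.aeval, map_zero]
  · rw [hqP, norm_div, ← pow_mul, norm_q, pow_mul, div_inv_eq_mul]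
    exact hψ₀

section Lin

variable {K V : Type*} [Field K] [AddCommGroup V] [Module K V]

lemma hasEigenvalue_of_gen {f : Module.End K V} {μ : K} {x : V} (hx : x ∈ f.maxGenEigenspace μ)
    (h0 : x ≠ 0) : f.HasEigenvalue μ := by
  obtain ⟨n, hn⟩ := (Module.End.mem_maxGenEigenspace _ _ _).1 hx
  by_contra hcon
  have hinj : Function.Injective (f - μ • (1 : Module.End K V)) := by
    rw [← LinearMap.ker_eq_bot]
    by_contra hk
    apply hcon
    rw [Module.End.hasEigenvalue_iff, Module.End.eigenspace_def]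
    exact hk
  have h2 : Function.Injective ((f - μ • (1 : Module.End K V)) ^ n) := by
    rw [Module.End.coe_pow]
    exact hinj.iterate n
  exact h0 (h2 (by rw [hn, map_zero]))

end Lin

variable {k : Type u} [Field k] {𝒱 : VarClass k} {ops : CycleOps 𝒱}
  {W : WeilCohomology.{u, v} ops} {X Y Z : 𝒱.Obj} {p : ℕ} {Φ : FrobSystem W p}

variable [hp : Fact p.Prime]

/-- Each eigenvalue occurs in the basis. -/
lemma Lev.eig {E : ℕ} {J : Type v} [Finite J] (L : Lev Φ E Z J) (hm : L.m = 1) {α : W.K}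
    (h : (frob Φ Z L.r).HasEigenvalue α) : ∃ i, L.lam i = α := by
  classical
  have : Fintype J := Fintype.ofFinite J
  obtain ⟨x, hx⟩ := h.exists_hasEigenvector
  by_contra hcon
  push Not at hcon
  apply hx.2
  rw [← L.B.b.sum_repr x]
  refine Finset.sum_eq_zero fun i _ => ?_
  have h1 : x ∈ (frob Φ Z L.r).maxGenEigenspace α :=
    (Module.End.mem_maxGenEigenspace _ _ _).2 ⟨1, by
      rw [pow_one, LinearMap.sub_apply, LinearMap.smul_apply, Module.End.one_apply,
        hx.apply_eq_smul, sub_self]⟩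
  have h2 : ∀ i, L.B.b i ∈ (frob Φ Z L.r).maxGenEigenspace (L.lam i) := fun i => by
    have := L.mem i
    rwa [hm, pow_one] at this
  rw [repr_eq_zero (Module.End.independent_maxGenEigenspace (frob Φ Z L.r)) L.B.b L.lam h2 h1
    (hcon i), zero_smul]

/-- Bases for the powers. -/
lemma exists_lev_pw {E : ℕ} (hE : 0 < E) {J : Type v} [Finite J] [Nonempty J] (L : Lev Φ E X J) :
    ∀ m : ℕ, ∃ (J' : Type v) (_ : Finite J') (_ : Nonempty J') (L' : Lev Φ E (pw X m) J'),
      ∀ I, ∃ l : List J, L'.lam I = (l.map L.lam).prod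
  | 0 => ⟨J, inferInstance, inferInstance, L, fun I => ⟨[I], by simp⟩⟩
  | m + 1 => by
    obtain ⟨J', h1, h2, L', h3⟩ := exists_lev_pw hE L m
    obtain ⟨M, hM1, hM2, hM3⟩ := exists_prod hE L L'
    refine ⟨J × J', inferInstance, inferInstance, M, fun I => ?_⟩
    obtain ⟨l, hl⟩ := h3 I.2
    exact ⟨I.1 :: l, (hM3 I).trans (by rw [hl, List.map_cons, List.prod_cons])⟩

/-- Some divisor on the product has a nonzero top self-intersection number. -/
lemma exists_big_prodF : ∀ (n : ℕ) (X : Fin (n + 1) → 𝒱.Obj)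
    (_ : ∀ j, ∃ D, (X j).IsCyc 1 D ∧ W.tr (X j) (W.cl (X j) D ^ (X j).dim) ≠ 0),
    ∃ D, (prodF n X).IsCyc 1 D ∧ W.tr (prodF n X) (W.cl (prodF n X) D ^ (prodF n X).dim) ≠ 0
  | 0, X, h => h 0
  | n + 1, X, h => by
    obtain ⟨D, h1, h2⟩ := h 0
    obtain ⟨G, h3, h4⟩ := exists_big_prodF n (fun j => X j.succ) fun j => h j.succ
    exact exists_big_prod h1 h2 h3 h4

/-- **Descent** to all factors. -/
lemma gtc_factors : ∀ (n : ℕ) (X : Fin (n + 1) → 𝒱.Obj)
    (_ : ∀ j, ∃ D, (X j).IsCyc 1 D ∧ W.tr (X j) (W.cl (X j) D ^ (X j).dim) ≠ 0)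
    (_ : ∀ i ν, GTCIn Φ (prodF n X) i ν), ∀ j i ν, GTCIn Φ (X j) i ν
  | 0, X, h, hg => fun j => by
    rw [Fin.fin_one_eq_zero j]
    exact hg
  | n + 1, X, h, hg => fun j => by
    refine Fin.cases ?_ (fun j => ?_) j
    · obtain ⟨D, h1, h2⟩ := exists_big_prodF n (fun j => X j.succ) fun j => h j.succ
      exact gtc_left (X := X 0) (Y := prodF n fun j => X j.succ) h1 h2 hg
    · obtain ⟨D, h1, h2⟩ := h 0
      exact gtc_factors n (fun j => X j.succ) (fun j => h j.succ)
        (gtc_right (X := X 0) (Y := prodF n fun j => X j.succ) h1 h2 hg) j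

/-- `α` is an eigenvalue of the `s`-th iterate of the Frobenius endomorphism on the cohomology
of `X`. -/
def IsEig (Φ : FrobSystem W p) (X : 𝒱.Obj) (s : ℕ) (α : W.K) : Prop :=
  Module.End.HasEigenvalue (W.map (W534.iter (Φ.Fr X) s)).toLinearMap α

/-- Some divisor on `X` has a nonzero top self-intersection number (for example an ample one). -/
def HasBigDivisor (ops : CycleOps 𝒱) (X : 𝒱.Obj) : Prop :=
  ∃ D : X.Cycles, X.IsCyc 1 D ∧ Big ops X D

omit hp in
lemma HasBigDivisor.tr (W : WeilCohomology.{u, v} ops) (h : HasBigDivisor ops X) :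
    ∃ D, X.IsCyc 1 D ∧ W.tr X (W.cl X D ^ X.dim) ≠ 0 := by
  obtain ⟨D, h1, h2⟩ := h
  exact ⟨D, h1, Big.tr h1 h2⟩

/-- The data for one variety. -/
structure Good (Φ : FrobSystem W p) (E : ℕ) (X : 𝒱.Obj) (s D : ℕ) (J : Type v) where
  L : Lev Φ E X J
  lam_eq : ∀ i, IsEig Φ X s (L.lam i)
  eig : ∀ α, IsEig Φ X s α → ∃ i, L.lam i = α
  int : ∀ i, IsIntegral ℤ (L.lam i)
  B : EBasis Φ X D J
  pow : ∀ i, L.lam i = B.α i ^ s

lemma exists_good [IsAlgClosed W.K] {D s E : ℕ} (hs : 0 < s) (hE : Φ.e X * s = E)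
    (h : HasWeilPolys Φ X D) :
    ∃ (J : Type v) (_ : Finite J), Nonempty (Good Φ E X s D J) := by
  obtain ⟨J, hJ, ⟨B⟩⟩ := exists_ebasis h
  obtain ⟨L, h1, h2, h3, h4⟩ := exists_lev B hs hE
  refine ⟨J, hJ, ⟨⟨L, fun i => ?_, fun α hα => ?_, fun i => ?_, B, h1⟩⟩⟩
  · have h5 := L.mem i
    rw [h4, pow_one, h3] at h5
    exact hasEigenvalue_of_gen h5 (L.B.b.ne_zero i)
  · exact L.eig h4 (by rw [h3]; exact hα)
  · rw [h1]
    exact (isIntegral_root (B.weil i).monic (B.root i)).pow _

omit hp in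
lemma nonempty_of_big {J : Type v} (b : Basis J W.K (W.H X)) (h : HasBigDivisor ops X) :
    Nonempty J := by
  obtain ⟨D, h1, h2⟩ := h.tr W
  by_contra hJ
  rw [not_nonempty_iff] at hJ
  apply h2
  have h3 : W.cl X D ^ X.dim = 0 := by
    apply b.repr.injective
    ext i
    exact hJ.elim i
  rw [h3, map_zero]

/-- **The generalized Tate conjecture for products, independent eigenvalues.** -/
theorem tuples [IsAlgClosed W.K] {E : ℕ} (hE : 0 < E) {n : ℕ} (X : Fin (n + 1) → 𝒱.Obj)
    (D s : Fin (n + 1) → ℕ) (hs : ∀ j, 0 < s j) (hcard : ∀ j, Φ.e (X j) * s j = E)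
    (hw : ∀ j, HasWeilPolys Φ (X j) (D j)) (hbig : ∀ j, HasBigDivisor ops (X j))
    (hlev : ∀ j, j ≠ Fin.last n → ∀ α, IsEig Φ (X j) (s j) α → IntLevel p (p ^ E) α)
    (hind : ∀ α : Fin (n + 1) → W.K, (∀ j, IsEig Φ (X j) (s j) (α j)) →
      finrank ℚ (⨆ j, IntermediateField.adjoin ℚ {α j} : IntermediateField ℚ W.K) =
        ∏ j, finrank ℚ (IntermediateField.adjoin ℚ {α j})) :
    (∀ i ν, GTCIn Φ (prodF n X) i ν) ↔ ∀ j i ν, GTCIn Φ (X j) i ν := by
  constructor
  · exact gtc_factors n X fun j => (hbig j).tr W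
  · intro h
    choose J hJ hG using fun j => exists_good (hs j) (hcard j) (hw j)
    let G : ∀ j, Good Φ E (X j) (s j) (D j) (J j) := fun j => (hG j).some
    obtain ⟨J', hJ', L', hgeo, -⟩ := geo_prodF hE n X J hJ
      (fun j => nonempty_of_big (G j).L.B.b (hbig j)) (fun j => (G j).L)
      (fun j => (G j).L.geo (h j)) (fun j i => (G j).int i)
      (fun j hj i => hlev j hj _ ((G j).lam_eq i))
      (fun i => ⟨fun j => IntermediateField.adjoin ℚ {(G j).L.lam (i j)}, fun j =>
        IntermediateField.adjoin.finiteDimensional (((G j).int (i j)).tower_top),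
        fun j => IntermediateField.mem_adjoin_simple_self ℚ _,
        hind _ fun j => (G j).lam_eq (i j)⟩)
    exact L'.gtc hgeo

/-- The products of the eigenvalues have integral levels if all slopes are integral. -/
lemma Good.intLevel {E s : ℕ} (hE : Φ.e X * s = E) {J : Type v} [Finite J]
    (G : Good Φ E X s 1 J) (l : List J) : IntLevel p (p ^ E) (l.map G.L.lam).prod := by
  let F : IntermediateField ℚ W.K := IntermediateField.adjoin ℚ (Set.range G.B.α)
  have hα : ∀ i, G.B.α i ∈ F := fun i => IntermediateField.subset_adjoin _ _ ⟨i, rfl⟩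
  have hαint : ∀ i, IsIntegral ℤ (G.B.α i) := fun i =>
    isIntegral_root (G.B.weil i).monic (G.B.root i)
  have hfd : FiniteDimensional ℚ F := by
    apply IntermediateField.finiteDimensional_adjoin
    rintro _ ⟨i, rfl⟩
    exact (hαint i).tower_top
  have hlam : ∀ i, G.L.lam i ∈ F := fun i => by
    rw [G.pow]
    exact pow_mem (hα i) _
  have hmem : (l.map G.L.lam).prod ∈ F := by
    refine list_prod_mem fun x hx => ?_
    obtain ⟨i, -, rfl⟩ := List.mem_map.1 hx
    exact hlam i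
  have hint : IsIntegral ℤ (l.map G.L.lam).prod := by
    clear hmem
    induction l with
    | nil => simpa using isIntegral_one
    | cons i l ih =>
      rw [List.map_cons, List.prod_cons]
      exact (G.int i).mul ih
  refine intLevel_of F hmem hint fun ψ => ?_
  have h1 : ∀ i, ∃ m : ℕ, ‖ψ ⟨G.B.α i, hα i⟩‖ * ((p : ℝ) ^ Φ.e X) ^ m = 1 := by
    intro i
    obtain ⟨m, hm⟩ := (G.B.weil i).slope (ψ ⟨G.B.α i, hα i⟩) (by
      have h2 := congrArg ψ (show eval₂ (Int.castRingHom F) ⟨G.B.α i, hα i⟩ (G.B.P i) = 0 by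
        apply (algebraMap F W.K).injective
        rw [map_zero, Polynomial.hom_eval₂]
        have h3 : (algebraMap F W.K).comp (Int.castRingHom F) = Int.castRingHom W.K :=
          RingHom.ext_int _ _
        rw [h3]
        exact G.B.root i)
      rw [map_zero] at h2
      rw [← h2]
      have h4 := Polynomial.hom_eval₂ (G.B.P i) (Int.castRingHom F) (ψ : F →+* PadicAlgCl p)
        ⟨G.B.α i, hα i⟩
      have h5 : (ψ : F →+* PadicAlgCl p).comp (Int.castRingHom F) =
          Int.castRingHom (PadicAlgCl p) := RingHom.ext_int _ _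
      rw [h5] at h4
      exact h4.symm)
    exact ⟨m, by simpa using hm⟩
  choose m hm using h1
  have h2 : ∀ (l : List J) (hl : (l.map G.L.lam).prod ∈ F),
      ‖ψ ⟨(l.map G.L.lam).prod, hl⟩‖ * ((p : ℝ) ^ E) ^ (l.map m).sum = 1 := by
    intro l
    induction l with
    | nil =>
      intro hl
      have : (⟨(List.map G.L.lam []).prod, hl⟩ : F) = 1 := by
        apply Subtype.ext
        simp
      rw [this, map_one]
      simp
    | cons i l ih =>
      intro hl
      have hl' : (l.map G.L.lam).prod ∈ F := by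
        refine list_prod_mem fun x hx => ?_
        obtain ⟨i, -, rfl⟩ := List.mem_map.1 hx
        exact hlam i
      have h3 : (⟨(List.map G.L.lam (i :: l)).prod, hl⟩ : F) =
          ⟨G.B.α i, hα i⟩ ^ s * ⟨(l.map G.L.lam).prod, hl'⟩ := by
        apply Subtype.ext
        push_cast
        rw [List.map_cons, List.prod_cons, G.pow]
      rw [h3, map_mul, map_pow, norm_mul, norm_pow, List.map_cons, List.sum_cons, pow_add]
      have h4 := ih hl'
      have h5 := congrArg (· ^ s) (hm i)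
      simp only [mul_pow, one_pow] at h5
      have h6 : (((p : ℝ) ^ Φ.e X) ^ m i) ^ s = ((p : ℝ) ^ E) ^ m i := by
        rw [← hE, ← pow_mul, ← pow_mul, ← pow_mul]
        congr 1
        ring
      rw [h6] at h5
      calc _ = (‖ψ ⟨G.B.α i, hα i⟩‖ ^ s * ((p : ℝ) ^ E) ^ m i) *
          (‖ψ ⟨(l.map G.L.lam).prod, hl'⟩‖ * ((p : ℝ) ^ E) ^ (l.map m).sum) := by ring
        _ = 1 := by rw [h4, h5, one_mul]
  exact ⟨_, h2 l hmem⟩

/-- **The generalized Tate conjecture for products of powers, independent fields.** -/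
theorem powers [IsAlgClosed W.K] {E : ℕ} (hE : 0 < E) {n : ℕ} (X : Fin (n + 1) → 𝒱.Obj)
    (D s : Fin (n + 1) → ℕ) (hs : ∀ j, 0 < s j) (hcard : ∀ j, Φ.e (X j) * s j = E)
    (hw : ∀ j, HasWeilPolys Φ (X j) (D j)) (hbig : ∀ j, HasBigDivisor ops (X j))
    (hslope : ∀ j, j ≠ Fin.last n → D j = 1)
    (hind : finrank ℚ (⨆ j, IntermediateField.adjoin ℚ {α | IsEig Φ (X j) (s j) α} :
      IntermediateField ℚ W.K) =
        ∏ j, finrank ℚ (IntermediateField.adjoin ℚ {α | IsEig Φ (X j) (s j) α}))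
    (m : Fin (n + 1) → ℕ) :
    (∀ i ν, GTCIn Φ (prodF n fun j => pw (X j) (m j)) i ν) ↔
      ∀ j i ν, GTCIn Φ (pw (X j) (m j)) i ν := by
  constructor
  · refine gtc_factors n (fun j => pw (X j) (m j)) fun j => ?_
    obtain ⟨D, h1, h2⟩ := (hbig j).tr W
    exact exists_big h1 h2 (m j)
  · intro h
    choose J hJ hG using fun j => exists_good (hs j) (hcard j) (hw j)
    let G : ∀ j, Good Φ E (X j) (s j) (D j) (J j) := fun j => (hG j).some
    have hne : ∀ j, Nonempty (J j) := fun j => nonempty_of_big (G j).L.B.b (hbig j)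
    choose J' hJ' hne' L' hL' using fun j => exists_lev_pw hE (G j).L (m j)
    have hlist : ∀ j (l : List (J j)), IsIntegral ℤ (l.map (G j).L.lam).prod := by
      intro j l
      induction l with
      | nil => simpa using isIntegral_one
      | cons i l ih =>
        rw [List.map_cons, List.prod_cons]
        exact ((G j).int i).mul ih
    obtain ⟨J'', hJ'', L'', hgeo, -⟩ := geo_prodF hE n (fun j => pw (X j) (m j)) J' hJ' hne'
      L' (fun j => (L' j).geo (h j))
      (fun j i => by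
        obtain ⟨l, hl⟩ := hL' j i
        rw [hl]
        exact hlist j l)
      (fun j hj i => by
        obtain ⟨l, hl⟩ := hL' j i
        rw [hl]
        have hD := hslope j hj
        have hGj := G j
        have key : ∀ (d : ℕ) (_ : d = 1) (Gd : Good Φ E (X j) (s j) d (J j)),
            IntLevel p (p ^ E) (l.map Gd.L.lam).prod := by
          rintro d rfl Gd
          exact Gd.intLevel (hcard j) l
        exact key (D j) hD (G j))
      (fun i => ⟨fun j => IntermediateField.adjoin ℚ {α | IsEig Φ (X j) (s j) α}, fun j => by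
        have hfin : Finite {α : W.K | IsEig Φ (X j) (s j) α} :=
          Module.End.finite_hasEigenvalue _
        apply IntermediateField.finiteDimensional_adjoin
        intro α hα
        obtain ⟨i, rfl⟩ := (G j).eig α hα
        exact ((G j).int i).tower_top, fun j => by
        obtain ⟨l, hl⟩ := hL' j (i j)
        rw [hl]
        refine list_prod_mem fun x hx => ?_
        obtain ⟨i, -, rfl⟩ := List.mem_map.1 hx
        exact IntermediateField.subset_adjoin _ _ ((G j).lam_eq i), hind⟩)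
    exact L''.gtc hgeo

end Pool.Agent.Q135.GP
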