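import Pool.Agent.Q68.GT.Main
import Pool.Agent.Q135.GP.Emb

/-!
# Bases of generalised eigenvectors and the geometric coniveau filtration of products
-/

set_option linter.unusedVariables false
set_option linter.unusedSectionVars false

open CategoryTheory AlgebraicGeometry

universe u v

namespace Pool.Agent.Q135.GP

open Polynomial Pool.Agent.H914 Pool.Agent.W534 VarClass Obj WeilCohomology Pool.Agent.Y163 Module
open Pool.Agent.Q68.FD Pool.Agent.Q68.GT

variable {k : Type u} [Field k] {𝒱 : VarClass k} {ops : CycleOps 𝒱}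
  {W : WeilCohomology.{u, v} ops} {X Y Z : 𝒱.Obj} {p : ℕ} {Φ : FrobSystem W p}

/-- A homogeneous basis of `H(Z)` of generalised eigenvectors of the Frobenius endomorphism over the
extension of degree `m` of the field with `q = p ^ E` elements, with eigenvalues `lam i ^ m`. -/
structure Lev (Φ : FrobSystem W p) (E : ℕ) (Z : 𝒱.Obj) (J : Type v) where
  B : HBasis W Z J
  lam : J → W.K
  r : ℕ
  m : ℕ
  r_pos : 0 < r
  m_pos : 0 < m
  hr : r * Φ.e Z = m * E
  mem : ∀ i, B.b i ∈ (frob Φ Z r).maxGenEigenspace (lam i ^ m)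

/-- Each member of the basis has the geometric coniveau predicted by its eigenvalue. -/
def Lev.Geo {E : ℕ} {J : Type v} (L : Lev Φ E Z J) : Prop :=
  ∀ i ν, IsIntegral ℤ (L.lam i / ((p : W.K) ^ E) ^ ν) → L.B.b i ∈ geoConiv W Z (L.B.deg i) ν

lemma div_pow_pow {K : Type*} [Field K] (x P : K) (E m ν : ℕ) :
    x ^ m / (P ^ (m * E)) ^ ν = (x / (P ^ E) ^ ν) ^ m := by
  rw [div_pow, ← pow_mul, ← pow_mul, ← pow_mul]
  congr 2
  ring

variable [hp : Fact p.Prime]

/-- The generalized Tate conjecture gives the coniveaus of the members of the basis. -/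
lemma Lev.geo {E : ℕ} {J : Type v} (L : Lev Φ E Z J) (h : ∀ i ν, GTCIn Φ Z i ν) : L.Geo := by
  intro i ν hi
  refine h (L.B.deg i) ν L.r L.r_pos (L.lam i ^ L.m) ?_ ⟨L.mem i, L.B.mem i⟩
  have h1 : (card Φ Z L.r : W.K) = (p : W.K) ^ (L.m * E) := by
    rw [card_cast]
    congr 1
    rw [mul_comm, L.hr]
  rw [h1, div_pow_pow]
  exact hi.pow _

/-- The coniveaus of the members of the basis give the generalized Tate conjecture. -/
lemma Lev.gtc {E : ℕ} {J : Type v} [Finite J] (L : Lev Φ E Z J) (h : L.Geo) (i ν : ℕ) :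
    GTCIn Φ Z i ν := by
  classical
  have : Fintype J := Fintype.ofFinite J
  intro s hs α₀ hα₀ c hc
  rw [← L.B.b.sum_repr c]
  refine Submodule.sum_mem _ fun I _ => ?_
  by_cases hI : L.B.b.repr c I = 0
  · rw [hI, zero_smul]
    exact Submodule.zero_mem _
  refine Submodule.smul_mem _ _ ?_
  have hdeg : L.B.deg I = i := by
    by_contra hne
    apply hI
    exact repr_eq_zero (W.isInternal Z).submodule_iSupIndep L.B.b L.B.deg L.B.mem hc.2 hne
  have hc1 : c ∈ (frob Φ Z (L.r * s)).maxGenEigenspace (α₀ ^ L.r) := by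
    have h1 := gen_mono (frob Φ Z s) α₀ L.r hc.1
    rwa [← frob_mul_eq, mul_comm s] at h1
  have heig : ∀ I, L.B.b I ∈ (frob Φ Z (L.r * s)).maxGenEigenspace ((L.lam I ^ L.m) ^ s) := by
    intro I
    have h1 := gen_mono (frob Φ Z L.r) (L.lam I ^ L.m) s (L.mem I)
    rwa [← frob_mul_eq] at h1
  have heq : (L.lam I ^ L.m) ^ s = α₀ ^ L.r := by
    by_contra hne
    apply hI
    exact repr_eq_zero (Module.End.independent_maxGenEigenspace (frob Φ Z (L.r * s))) L.B.b
      (fun I => (L.lam I ^ L.m) ^ s) heig hc1 hne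
  rw [← hdeg]
  refine h I ν ?_
  have h3 : ((L.lam I / ((p : W.K) ^ E) ^ ν) ^ L.m) ^ s =
      (α₀ / (card Φ Z s : W.K) ^ ν) ^ L.r := by
    rw [div_pow, div_pow, div_pow, heq, card_cast]
    congr 1
    rw [← pow_mul, ← pow_mul, ← pow_mul, ← pow_mul, ← pow_mul]
    congr 1
    calc E * (ν * (L.m * s)) = (L.m * E) * (ν * s) := by ring
      _ = Φ.e Z * s * (ν * L.r) := by rw [← L.hr]; ring
  have h4 : IsIntegral ℤ (((L.lam I / ((p : W.K) ^ E) ^ ν) ^ L.m) ^ s) := by
    rw [h3]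
    exact hα₀.pow _
  exact IsIntegral.of_pow L.m_pos (IsIntegral.of_pow hs h4)

/-- The product of two bases. -/
lemma exists_prod {E : ℕ} (hE : 0 < E) {J J' : Type v} (L : Lev Φ E X J) (L' : Lev Φ E Y J') :
    ∃ M : Lev Φ E (X.prod Y) (J × J'),
      (∀ i, M.B.b i = W.map (fst X Y) (L.B.b i.1) * W.map (snd X Y) (L'.B.b i.2)) ∧
      (∀ i, M.B.deg i = L.B.deg i.1 + L'.B.deg i.2) ∧ ∀ i, M.lam i = L.lam i.1 * L'.lam i.2 := by
  obtain ⟨a, b, ha, hb, hab, h⟩ := frob_comm (W := W) Φ (fst X Y)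
  obtain ⟨a', c, ha', hc, hac, h'⟩ := frob_comm (W := W) Φ (snd X Y)
  have hbase : ∀ i : J × J', ((L.B.b.tensorProduct L'.B.b).map (kappa W X Y)) i =
      W.map (fst X Y) (L.B.b i.1) * W.map (snd X Y) (L'.B.b i.2) := by
    intro i
    rw [Basis.map_apply, Basis.tensorProduct_apply', kappa_tmul]
  -- the level
  set t := L.r * L'.r with ht
  have e1 : (L.m * (b * a') * L'.r) * E = (a * a') * t * Φ.e (X.prod Y) := by
    calc (L.m * (b * a') * L'.r) * E = (L.m * E) * (b * a' * L'.r) := by ring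
      _ = L.r * (b * Φ.e X) * (a' * L'.r) := by rw [← L.hr]; ring
      _ = _ := by rw [← hab, ht]; ring
  have e2 : (L'.m * (c * a) * L.r) * E = (a * a') * t * Φ.e (X.prod Y) := by
    calc (L'.m * (c * a) * L.r) * E = (L'.m * E) * (c * a * L.r) := by ring
      _ = L'.r * (c * Φ.e Y) * (a * L.r) := by rw [← L'.hr]; ring
      _ = _ := by rw [← hac, ht]; ring
  have e3 : L.m * (b * a') * L'.r = L'.m * (c * a) * L.r :=
    Nat.eq_of_mul_eq_mul_right hE (e1.trans e2.symm)
  refine ⟨⟨⟨(L.B.b.tensorProduct L'.B.b).map (kappa W X Y),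
    fun i => L.B.deg i.1 + L'.B.deg i.2, fun i => ?_⟩, fun i => L.lam i.1 * L'.lam i.2,
    (a * a') * t, L.m * (b * a') * L'.r, ?_, ?_, e1.symm, fun i => ?_⟩, hbase, fun i => rfl,
    fun i => rfl⟩
  · rw [hbase]
    exact W.mul_mem (W.map_mem _ (L.B.mem _)) (W.map_mem _ (L'.B.mem _))
  · exact Nat.mul_pos (Nat.mul_pos ha ha') (Nat.mul_pos L.r_pos L'.r_pos)
  · exact Nat.mul_pos (Nat.mul_pos L.m_pos (Nat.mul_pos hb ha')) L'.r_pos
  · change ((L.B.b.tensorProduct L'.B.b).map (kappa W X Y)) i ∈ _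
    rw [hbase, mul_pow]
    refine Pool.Agent.Y133.Half.gen_bilin (β := LinearMap.mul W.K (W.H (X.prod Y)))
      (f := frob Φ (X.prod Y) (a * a' * t)) (g := frob Φ (X.prod Y) (a * a' * t))
      (fun x y => ?_) ?_ ?_
    · rw [LinearMap.mul_apply', LinearMap.mul_apply', frob_apply, frob_apply, frob_apply, map_mul]
    · have h2 : L.B.b i.1 ∈ (frob Φ X (b * (a' * t))).maxGenEigenspace
          (L.lam i.1 ^ (L.m * (b * a') * L'.r)) := by
        have h3 := gen_mono (frob Φ X L.r) (L.lam i.1 ^ L.m) (b * a' * L'.r) (L.mem i.1)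
        rw [← frob_mul_eq, ← pow_mul] at h3
        rw [show b * (a' * t) = L.r * (b * a' * L'.r) by rw [ht]; ring,
          show L.m * (b * a') * L'.r = L.m * (b * a' * L'.r) by ring]
        exact h3
      rw [show a * a' * t = a * (a' * t) by ring]
      exact gen_intertwine (θ := (W.map (fst X Y)).toLinearMap) (fun y => (h (a' * t) y).symm) h2
    · rw [e3]
      have h2 : L'.B.b i.2 ∈ (frob Φ Y (c * (a * t))).maxGenEigenspace
          (L'.lam i.2 ^ (L'.m * (c * a) * L.r)) := by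
        have h3 := gen_mono (frob Φ Y L'.r) (L'.lam i.2 ^ L'.m) (c * a * L.r) (L'.mem i.2)
        rw [← frob_mul_eq, ← pow_mul] at h3
        rw [show c * (a * t) = L'.r * (c * a * L.r) by rw [ht]; ring,
          show L'.m * (c * a) * L.r = L'.m * (c * a * L.r) by ring]
        exact h3
      rw [show a * a' * t = a' * (a * t) by ring]
      exact gen_intertwine (θ := (W.map (snd X Y)).toLinearMap) (fun y => (h' (a * t) y).symm) h2

/-- The basis given by the Weil polynomials. -/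
lemma exists_lev {D : ℕ} {ι : Type v} (B : EBasis Φ X D ι) {E s : ℕ} (hs : 0 < s)
    (h : Φ.e X * s = E) : ∃ L : Lev Φ E X ι, (∀ i, L.lam i = B.α i ^ s) ∧ L.B = B.B ∧ L.r = s ∧
      L.m = 1 := by
  refine ⟨⟨B.B, fun i => B.α i ^ s, s, 1, hs, one_pos, by rw [one_mul, mul_comm]; exact h,
    fun i => ?_⟩, fun i => rfl, rfl, rfl, rfl⟩
  rw [pow_one, frob_eq_pow]
  exact gen_mono _ _ _ (B.mem i)

end Pool.Agent.Q135.GP
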