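import Pool.Agent.Q135.GP.Desc

/-!
# The generalized Tate conjecture for products of varieties with independent Frobenius eigenvalues
-/

set_option linter.unusedVariables false
set_option linter.unusedSectionVars false

open CategoryTheory AlgebraicGeometry

universe u v

namespace Pool.Agent.Q135.GP

open Polynomial Pool.Agent.H914 Pool.Agent.W534 VarClass Obj WeilCohomology Pool.Agent.Y163 Module
open Pool.Agent.Q68.FD Pool.Agent.Q68.GT

section Fields

variable {K : Type*} [Field K] [CharZero K]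

lemma iSup_fin_succ' {α : Type*} [CompleteLattice α] {n : ℕ} (F : Fin (n + 1) → α) :
    (⨆ j, F j) = F 0 ⊔ ⨆ j : Fin n, F j.succ := by
  apply le_antisymm
  · refine iSup_le fun j => ?_
    refine Fin.cases ?_ (fun j => ?_) j
    · exact le_sup_left
    · exact (le_iSup (fun j : Fin n => F j.succ) j).trans le_sup_right
  · exact sup_le (le_iSup F 0) (iSup_le fun j => le_iSup F j.succ)

lemma finite_iSup {n : ℕ} (F : Fin n → IntermediateField ℚ K) (h : ∀ j, FiniteDimensional ℚ (F j)) :
    FiniteDimensional ℚ (⨆ j, F j : IntermediateField ℚ K) :=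
  IntermediateField.finiteDimensional_iSup_of_finite

lemma finrank_iSup_le' : ∀ {n : ℕ} (F : Fin n → IntermediateField ℚ K)
    (_ : ∀ j, FiniteDimensional ℚ (F j)),
    finrank ℚ (⨆ j, F j : IntermediateField ℚ K) ≤ ∏ j, finrank ℚ (F j)
  | 0, F, h => by
    rw [iSup_of_empty, Finset.univ_eq_empty, Finset.prod_empty, IntermediateField.finrank_bot]
  | n + 1, F, h => by
    rw [iSup_fin_succ', Fin.prod_univ_succ]
    exact (IntermediateField.finrank_sup_le _ _).trans
      (Nat.mul_le_mul_left _ (finrank_iSup_le' _ fun j => h j.succ))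

/-- Joint independence of a family of fields gives the independence of the first one of the others,
and the joint independence of the others. -/
lemma indep_succ {n : ℕ} (F : Fin (n + 1) → IntermediateField ℚ K)
    (h : ∀ j, FiniteDimensional ℚ (F j))
    (hF : finrank ℚ (⨆ j, F j : IntermediateField ℚ K) = ∏ j, finrank ℚ (F j)) :
    (F 0).LinearDisjoint (⨆ j : Fin n, F j.succ : IntermediateField ℚ K) ∧
      finrank ℚ (⨆ j : Fin n, F j.succ : IntermediateField ℚ K) =
        ∏ j : Fin n, finrank ℚ (F j.succ) := by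
  have h0 := h 0
  have h1 := finite_iSup (fun j : Fin n => F j.succ) fun j => h j.succ
  have h2 := finrank_iSup_le' (fun j : Fin n => F j.succ) fun j => h j.succ
  have h3 := IntermediateField.finrank_sup_le (F 0) (⨆ j : Fin n, F j.succ)
  rw [iSup_fin_succ', Fin.prod_univ_succ] at hF
  have hpos : 0 < finrank ℚ (F 0) := Module.finrank_pos
  have h4 : finrank ℚ (⨆ j : Fin n, F j.succ : IntermediateField ℚ K) =
      ∏ j : Fin n, finrank ℚ (F j.succ) := by
    refine le_antisymm h2 ?_
    rw [hF] at h3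
    exact Nat.le_of_mul_le_mul_left h3 hpos
  refine ⟨?_, h4⟩
  apply IntermediateField.LinearDisjoint.of_finrank_sup
  rw [hF, h4]

end Fields

variable {k : Type u} [Field k] {𝒱 : VarClass k} {ops : CycleOps 𝒱}
  {W : WeilCohomology.{u, v} ops} {p : ℕ} {Φ : FrobSystem W p}

/-- The product of the varieties `X 0`, ..., `X n`. -/
noncomputable def prodF : ∀ n, (Fin (n + 1) → 𝒱.Obj) → 𝒱.Obj
  | 0, X => X 0
  | n + 1, X => (X 0).prod (prodF n fun j => X j.succ)

variable [hp : Fact p.Prime]

/-- **The geometric coniveaus on a product.** -/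
theorem geo_prodF {E : ℕ} (hE : 0 < E) : ∀ (n : ℕ) (X : Fin (n + 1) → 𝒱.Obj)
    (J : Fin (n + 1) → Type v) (_ : ∀ j, Finite (J j)) (_ : ∀ j, Nonempty (J j))
    (L : ∀ j, Lev Φ E (X j) (J j)) (_ : ∀ j, (L j).Geo)
    (_ : ∀ j i, IsIntegral ℤ ((L j).lam i))
    (_ : ∀ j, j ≠ Fin.last n → ∀ i, IntLevel p (p ^ E) ((L j).lam i))
    (_ : ∀ i : ∀ j, J j, ∃ F : Fin (n + 1) → IntermediateField ℚ W.K,
      (∀ j, FiniteDimensional ℚ (F j)) ∧ (∀ j, (L j).lam (i j) ∈ F j) ∧
      finrank ℚ (⨆ j, F j : IntermediateField ℚ W.K) = ∏ j, finrank ℚ (F j)),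
    ∃ (J' : Type v) (_ : Finite J') (L' : Lev Φ E (prodF n X) J'), L'.Geo ∧
      ∀ I, ∃ i : ∀ j, J j, L'.lam I = ∏ j, (L j).lam (i j)
  | 0, X, J, hJ, hne, L, hgeo, hint, hlev, hind => by
    refine ⟨J 0, hJ 0, L 0, hgeo 0, fun I => ⟨fun j => Fin.cases I (fun j => j.elim0) j, ?_⟩⟩
    rw [Fin.prod_univ_one]
    rfl
  | n + 1, X, J, hJ, hne, L, hgeo, hint, hlev, hind => by
    obtain ⟨J', hJ', L', hgeo', hprod⟩ := geo_prodF hE n (fun j => X j.succ) (fun j => J j.succ)
      (fun j => hJ _) (fun j => hne _) (fun j => L j.succ) (fun j => hgeo _) (fun j => hint _)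
      (fun j hj => hlev j.succ (fun h => hj (by
        rw [← Fin.succ_last] at h
        exact Fin.succ_injective _ h)))
      (fun i => by
        obtain ⟨i₀⟩ := hne 0
        obtain ⟨F, hF1, hF2, hF3⟩ := hind (fun j => Fin.cases i₀ i j)
        exact ⟨fun j => F j.succ, fun j => hF1 _, fun j => hF2 j.succ,
          (indep_succ F hF1 hF3).2⟩)
    obtain ⟨M, hM1, hM2, hM3⟩ := exists_prod hE (L 0) L'
    have hJ0 := hJ 0
    have hM : M.Geo := by
      intro I ν hI
      obtain ⟨i', hi'⟩ := hprod I.2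
      obtain ⟨F, hF1, hF2, hF3⟩ := hind (fun j => Fin.cases (motive := J) I.1 i' j)
      obtain ⟨hdis, -⟩ := indep_succ F hF1 hF3
      have hfin := finite_iSup (fun j : Fin (n + 1) => F j.succ) fun j => hF1 _
      have hmem : L'.lam I.2 ∈ (⨆ j : Fin (n + 1), F j.succ : IntermediateField ℚ W.K) := by
        rw [hi']
        refine prod_mem fun j _ => ?_
        exact (le_iSup (fun j : Fin (n + 1) => F j.succ) j) (hF2 j.succ)
      have hintI : IsIntegral ℤ (L'.lam I.2) := by
        rw [hi']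
        exact IsIntegral.prod _ fun j _ => hint _ _
      rw [hM3] at hI
      obtain ⟨ν₁, ν₂, hν, h1, h2⟩ := split hdis (hF2 0) hmem (hF1 0)
        (hlev 0 (by
          intro h
          have := congrArg Fin.val h
          simp at this) I.1) hintI hI
      rw [hM1, hM2, ← hν]
      exact geoConiv.mul (geoConiv.map _ (hgeo 0 _ _ h1)) (geoConiv.map _ (hgeo' _ _ h2))
    refine ⟨J 0 × J', inferInstance, M, hM, fun I => ?_⟩
    obtain ⟨i', hi'⟩ := hprod I.2
    refine ⟨fun j => Fin.cases (motive := J) I.1 i' j, (hM3 I).trans ?_⟩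
    rw [hi']
    exact (Fin.prod_univ_succ (fun j => (L j).lam (Fin.cases (motive := J) I.1 i' j))).symm

end Pool.Agent.Q135.GP
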