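import Pool.Agent.Q135.GP.Fin

/-!
# Products with supersingular varieties
-/

set_option linter.unusedVariables false
set_option linter.unusedSectionVars false

open CategoryTheory AlgebraicGeometry

universe u v

namespace Pool.Agent.Q135.GP

open Polynomial Pool.Agent.H914 Pool.Agent.W534 VarClass Obj WeilCohomology Pool.Agent.Y163 Module
open Pool.Agent.Q68.FD Pool.Agent.Q68.GT Pool.Agent.H485R3

variable {k : Type u} [Field k] {𝒱 : VarClass k} {ops : CycleOps 𝒱}
  {W : WeilCohomology.{u, v} ops} {p : ℕ} {Φ : FrobSystem W p}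

variable [hp : Fact p.Prime]

lemma level_eq {n : ℕ} {X : Fin (n + 1) → 𝒱.Obj} {s : Fin (n + 1) → ℕ} {q : ℕ}
    (hs : ∀ j, 0 < s j) (hq : ∀ j, card Φ (X j) (s j) = q) :
    ∃ E, 0 < E ∧ q = p ^ E ∧ ∀ j, Φ.e (X j) * s j = E := by
  refine ⟨Φ.e (X 0) * s 0, Nat.mul_pos (Φ.e_pos _) (hs 0), (hq 0).symm, fun j => ?_⟩
  have h1 : p ^ (Φ.e (X j) * s j) = p ^ (Φ.e (X 0) * s 0) := (hq j).trans (hq 0).symm
  exact Nat.pow_right_injective hp.1.two_le h1

/-- **Products with a supersingular variety.** -/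
theorem super [IsAlgClosed W.K] {X Y : 𝒱.Obj} {s t D q : ℕ} (hs : 0 < s) (ht : 0 < t)
    (hX : card Φ X s = q) (hY : card Φ Y t = q) (hwX : HasWeilPolys Φ X 1)
    (hwY : HasWeilPolys Φ Y D) (hbX : HasBigDivisor ops X) (hbY : HasBigDivisor ops Y)
    (hrat : ∀ β, IsEig Φ Y t β → ∃ r : ℚ, β = (r : W.K)) (m l : ℕ) :
    (∀ i ν, GTCIn Φ ((pw X m).prod (pw Y l)) i ν) ↔
      (∀ i ν, GTCIn Φ (pw X m) i ν) ∧ ∀ i ν, GTCIn Φ (pw Y l) i ν := by
  let Z : Fin 2 → 𝒱.Obj := fun j => Fin.cases X (fun _ => Y) j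
  let S : Fin 2 → ℕ := fun j => Fin.cases s (fun _ => t) j
  let D' : Fin 2 → ℕ := fun j => Fin.cases 1 (fun _ => D) j
  let M : Fin 2 → ℕ := fun j => Fin.cases m (fun _ => l) j
  have hS : ∀ j, 0 < S j := fun j => by
    refine Fin.cases ?_ (fun j => ?_) j
    · exact hs
    · exact ht
  have hZ : ∀ j, card Φ (Z j) (S j) = q := fun j => by
    refine Fin.cases ?_ (fun j => ?_) j
    · exact hX
    · exact hY
  obtain ⟨E, hE, rfl, hcard⟩ := level_eq hS hZ
  have hW : ∀ j, HasWeilPolys Φ (Z j) (D' j) := fun j => by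
    refine Fin.cases ?_ (fun j => ?_) j
    · exact hwX
    · exact hwY
  have hB : ∀ j, HasBigDivisor ops (Z j) := fun j => by
    refine Fin.cases ?_ (fun j => ?_) j
    · exact hbX
    · exact hbY
  have key := powers hE Z D' S hS hcard hW hB (fun j => by
    refine Fin.cases (fun _ => rfl) (fun j hj => ?_) j
    exact absurd (by
      apply Fin.ext
      simp) hj) (by
    rw [iSup_fin_succ', Fin.prod_univ_two]
    have h1 : IntermediateField.adjoin ℚ {α | IsEig Φ (Z 1) (S 1) α} = ⊥ := by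
      rw [IntermediateField.adjoin_eq_bot_iff]
      rintro β hβ
      obtain ⟨r, rfl⟩ := hrat β hβ
      exact IntermediateField.algebraMap_mem _ r
    have h2 : (⨆ j : Fin 1, IntermediateField.adjoin ℚ {α | IsEig Φ (Z j.succ) (S j.succ) α} :
        IntermediateField ℚ W.K) = ⊥ := by
      rw [eq_bot_iff]
      refine iSup_le fun j => ?_
      rw [Fin.fin_one_eq_zero j]
      exact h1.le
    rw [h2, h1, sup_bot_eq, IntermediateField.finrank_bot, mul_one]) M
  constructor
  · intro h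
    have h' := key.1 h
    exact ⟨h' 0, h' 1⟩
  · rintro ⟨h1, h2⟩
    refine key.2 fun j => ?_
    refine Fin.cases ?_ (fun j => ?_) j
    · exact h1
    · exact h2

/-- The generalized Tate conjecture for `X`, in all degrees and for all coniveaus. -/
def GTC (Φ : FrobSystem W p) (X : 𝒱.Obj) : Prop := ∀ i ν, GTCIn Φ X i ν

/-- The numbers `s j` are such that the `s j`-th iterate of `Φ.Fr (X j)` is the Frobenius
endomorphism over the field with `q` elements; the Frobenius polynomials of `X j` are integral Weil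
polynomials with slopes in `(1 / D j) ℤ`; some divisor on `X j` has a nonzero top
self-intersection number. -/
structure IsFamily (Φ : FrobSystem W p) {n : ℕ} (X : Fin (n + 1) → 𝒱.Obj)
    (D s : Fin (n + 1) → ℕ) (q : ℕ) : Prop where
  pos : ∀ j, 0 < s j
  card_eq : ∀ j, card Φ (X j) (s j) = q
  weil : ∀ j, HasWeilPolys Φ (X j) (D j)
  big : ∀ j, HasBigDivisor ops (X j)

/-- The smallest slope of each eigenvalue is an integer. -/
def HasIntegralLevels (Φ : FrobSystem W p) (X : 𝒱.Obj) (s q : ℕ) : Prop :=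
  ∀ α, IsEig Φ X s α → IntLevel p q α

/-- The degree over `ℚ` of the field generated by `S`. -/
noncomputable def degQ {K : Type*} [Field K] [CharZero K] (S : Set K) : ℕ :=
  finrank ℚ (IntermediateField.adjoin ℚ S)

/-- For each choice of eigenvalues `α j` of the `X j` the degree of the field
`ℚ(α 0, ..., α n)` is the product of the degrees of the fields `ℚ(α j)`. -/
def IndependentEigenvalues (Φ : FrobSystem W p) {n : ℕ} (X : Fin (n + 1) → 𝒱.Obj)
    (s : Fin (n + 1) → ℕ) : Prop :=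
  ∀ α : Fin (n + 1) → W.K, (∀ j, IsEig Φ (X j) (s j) (α j)) →
    degQ (Set.range α) = ∏ j, degQ {α j}

/-- The set of the eigenvalues of the `s`-th iterate of the Frobenius endomorphism. -/
def eigSet (Φ : FrobSystem W p) (X : 𝒱.Obj) (s : ℕ) : Set W.K := {α | IsEig Φ X s α}

/-- The degree of the field generated by the eigenvalues of all `X j` is the product of the degrees
of the fields generated by the eigenvalues of `X j`. -/
def IndependentFields (Φ : FrobSystem W p) {n : ℕ} (X : Fin (n + 1) → 𝒱.Obj)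
    (s : Fin (n + 1) → ℕ) : Prop :=
  degQ (⋃ j, eigSet Φ (X j) (s j)) = ∏ j, degQ (eigSet Φ (X j) (s j))

lemma adjoin_iUnion {K : Type*} [Field K] [CharZero K] {ι : Type*} (S : ι → Set K) :
    IntermediateField.adjoin ℚ (⋃ j, S j) = ⨆ j, IntermediateField.adjoin ℚ (S j) :=
  (IntermediateField.gc (F := ℚ) (E := K)).l_iSup

lemma adjoin_range {K : Type*} [Field K] [CharZero K] {ι : Type*} (α : ι → K) :
    IntermediateField.adjoin ℚ (Set.range α) = ⨆ j, IntermediateField.adjoin ℚ {α j} := by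
  rw [← adjoin_iUnion, ← Set.iUnion_singleton_eq_range]

lemma indep_eig {n : ℕ} {X : Fin (n + 1) → 𝒱.Obj} {s : Fin (n + 1) → ℕ}
    (h : IndependentEigenvalues Φ X s) (α : Fin (n + 1) → W.K)
    (hα : ∀ j, IsEig Φ (X j) (s j) (α j)) :
    finrank ℚ (⨆ j, IntermediateField.adjoin ℚ {α j} : IntermediateField ℚ W.K) =
      ∏ j, finrank ℚ (IntermediateField.adjoin ℚ {α j}) := by
  rw [← adjoin_range]
  exact h α hα

lemma indep_fields {n : ℕ} {X : Fin (n + 1) → 𝒱.Obj} {s : Fin (n + 1) → ℕ}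
    (h : IndependentFields Φ X s) :
    finrank ℚ (⨆ j, IntermediateField.adjoin ℚ {α | IsEig Φ (X j) (s j) α} :
      IntermediateField ℚ W.K) =
      ∏ j, finrank ℚ (IntermediateField.adjoin ℚ {α | IsEig Φ (X j) (s j) α}) := by
  rw [← adjoin_iUnion]
  exact h

end Pool.Agent.Q135.GP
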